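import Mathlib

namespace Pool.Agent.Results.MP_67c61c_pr.Lazy

open Finset Matrix

variable {d : ℕ}

/-- Time reversal `M*`. -/
noncomputable def rev (p : Fin d → ℝ) (M : Matrix (Fin d) (Fin d) ℝ) : Matrix (Fin d) (Fin d) ℝ :=
  fun i j => p j * M j i / p i

/-- Second largest eigenvalue: the largest eigenvalue on the `π`-orthogonal complement of the
constants. -/
noncomputable def lam2 (p : Fin d → ℝ) (A : Matrix (Fin d) (Fin d) ℝ) : ℝ :=
  sSup {μ | ∃ f : Fin d → ℝ, f ≠ 0 ∧ ∑ i, p i * f i = 0 ∧ A *ᵥ f = μ • f}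

/-- Pseudo spectral gap. -/
noncomputable def gps (p : Fin d → ℝ) (M : Matrix (Fin d) (Fin d) ℝ) : ℝ :=
  ⨆ k : ℕ, (1 - lam2 p (rev p (M ^ (k + 1)) * M ^ (k + 1))) / (k + 1)

/-- `M` is row-stochastic with stationary vector `p`. -/
def Stat (p : Fin d → ℝ) (M : Matrix (Fin d) (Fin d) ℝ) : Prop :=
  (∀ i j, 0 ≤ M i j) ∧ (∀ i, ∑ j, M i j = 1) ∧ ∀ j, ∑ i, p i * M i j = p j

def ip (p f g : Fin d → ℝ) : ℝ := ∑ i, p i * f i * g i

variable {p : Fin d → ℝ} {M N : Matrix (Fin d) (Fin d) ℝ}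

lemma Stat.mul (h : Stat p M) (h' : Stat p N) : Stat p (M * N) := by
  refine ⟨fun i j => ?_, fun i => ?_, fun j => ?_⟩
  · rw [mul_apply]; exact sum_nonneg fun k _ => mul_nonneg (h.1 _ _) (h'.1 _ _)
  · simp only [mul_apply]; rw [sum_comm]; simp [← mul_sum, h'.2.1, h.2.1]
  · simp only [mul_apply, mul_sum]; rw [sum_comm]
    simp only [← mul_assoc, ← sum_mul, h.2.2, h'.2.2]

lemma Stat.pow (h : Stat p M) (k : ℕ) : Stat p (M ^ k) := by
  induction k with
  | zero => exact ⟨fun i j => by simp only [pow_zero, one_apply]; positivity,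
      fun i => by simp [one_apply], fun i => by simp [one_apply]⟩
  | succ k ih => rw [pow_succ]; exact ih.mul h

lemma mean (h : Stat p M) (f : Fin d → ℝ) : ∑ i, p i * (M *ᵥ f) i = ∑ i, p i * f i := by
  simp only [mulVec, dotProduct, mul_sum]; rw [sum_comm]
  simp only [← mul_assoc, ← sum_mul, h.2.2]

lemma ip0 (hp : ∀ i, 0 < p i) (f : Fin d → ℝ) : 0 ≤ ip p f f :=
  sum_nonneg fun i _ => by rw [mul_assoc]; exact mul_nonneg (hp i).le (mul_self_nonneg _)

lemma ipp (hp : ∀ i, 0 < p i) {f : Fin d → ℝ} (hf : f ≠ 0) : 0 < ip p f f := by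
  obtain ⟨i, hi⟩ := Function.ne_iff.1 hf
  exact sum_pos' (fun i _ => by rw [mul_assoc]; exact mul_nonneg (hp i).le (mul_self_nonneg _))
    ⟨i, mem_univ _, by rw [mul_assoc]; exact mul_pos (hp i) (mul_self_pos.2 hi)⟩

lemma contr (hp : ∀ i, 0 < p i) (h : Stat p M) (f : Fin d → ℝ) :
    ip p (M *ᵥ f) (M *ᵥ f) ≤ ip p f f := by
  have := mean h fun i => f i * f i
  simp only [ip, mul_assoc]
  rw [← this]
  refine sum_le_sum fun i _ => mul_le_mul_of_nonneg_left ?_ (hp i).le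
  have := Real.pow_arith_mean_le_arith_mean_pow_of_even univ (M i) f (fun j _ => h.1 i j)
    (h.2.1 i) even_two
  simpa only [sq, mulVec, dotProduct] using this

lemma adj (hp : ∀ i, 0 < p i) (f g : Fin d → ℝ) :
    ip p ((rev p M * M) *ᵥ f) g = ip p (M *ᵥ f) (M *ᵥ g) := by
  rw [← mulVec_mulVec]
  generalize M *ᵥ f = u
  simp only [ip, rev, mulVec, dotProduct, mul_sum, sum_mul]
  rw [sum_comm]
  refine sum_congr rfl fun i _ => sum_congr rfl fun j _ => ?_
  field_simp [(hp j).ne']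

lemma ipq (f g : Fin d → ℝ) (s t : ℝ) : ip p (s • f + t • g) (s • f + t • g) =
    s ^ 2 * ip p f f + 2 * s * t * ip p f g + t ^ 2 * ip p g g := by
  simp only [ip, mul_sum, ← sum_add_distrib, Pi.add_apply, Pi.smul_apply, smul_eq_mul]
  exact sum_congr rfl fun i _ => by ring

lemma top (hd : 2 ≤ d) (hp : ∀ i, 0 < p i) (h : Stat p M) : ∃ u, u ≠ 0 ∧ ∑ i, p i * u i = 0 ∧
    ip p (M *ᵥ u) (M *ᵥ u) = lam2 p (rev p M * M) * ip p u u ∧ ∀ f, ∑ i, p i * f i = 0 →
      ip p (M *ᵥ f) (M *ᵥ f) ≤ lam2 p (rev p M * M) * ip p f f := by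
  have sc : ∀ f : Fin d → ℝ, f ≠ 0 → ∑ i, p i * f i = 0 →
      ‖f‖⁻¹ • f ∈ Metric.sphere (0 : Fin d → ℝ) 1 ∩ {f | ∑ i, p i * f i = 0} := fun f h0 hf =>
    ⟨by simpa using norm_smul_inv_norm (𝕜 := ℝ) h0, by
      simp only [Set.mem_setOf, Pi.smul_apply, smul_eq_mul, mul_left_comm (p _), ← mul_sum, hf,
        mul_zero]⟩
  obtain ⟨u, ⟨u1, u2⟩, hu⟩ := ((isCompact_sphere (0 : Fin d → ℝ) 1).inter_right
    (isClosed_eq (f := fun f => ∑ i, p i * f i) (g := fun _ => 0) (by fun_prop)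
      continuous_const)).exists_isMaxOn (f := fun f => ip p (M *ᵥ f) (M *ᵥ f) / ip p f f) (by
      obtain ⟨d, rfl⟩ := Nat.exists_eq_add_of_le' hd
      refine ⟨_, sc (Pi.single 0 (p 1) - Pi.single 1 (p 0)) (fun e => ?_) ?_⟩
      · simpa [(hp 1).ne'] using congrFun e 0
      · simp [mul_sub, Pi.single_apply, mul_comm]) (by
      refine ContinuousOn.div (by unfold ip mulVec dotProduct; fun_prop)
        (by unfold ip; fun_prop) fun f hf => (ipp hp fun e => ?_).ne'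
      simpa [e] using hf.1)
  have u0 : u ≠ 0 := fun e => by simp [e] at u1
  have uu := ipp hp u0
  set μ := ip p (M *ᵥ u) (M *ᵥ u) / ip p u u
  have hμ : ip p (M *ᵥ u) (M *ᵥ u) = μ * ip p u u := (div_mul_cancel₀ _ uu.ne').symm
  have μ0 : 0 ≤ μ := div_nonneg (ip0 hp _) uu.le
  have key : ∀ f, ∑ i, p i * f i = 0 → ip p (M *ᵥ f) (M *ᵥ f) ≤ μ * ip p f f := fun f hf => by
    by_cases h0 : f = 0
    · simp [h0, ip]
    have : _ / _ ≤ μ := hu (sc f h0 hf)
    have e := fun g => ipq (p := p) g g ‖f‖⁻¹ 0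
    simp only [zero_smul, add_zero, mul_zero, zero_mul, ne_eq, OfNat.ofNat_ne_zero,
      not_false_eq_true, zero_pow] at e
    rwa [mulVec_smul, e, e, mul_div_mul_left _ _ (by simpa using h0),
      div_le_iff₀ (ipp hp h0)] at this
  have ev : (rev p M * M) *ᵥ u = μ • u := by
    by_contra hne
    rw [← sub_eq_zero] at hne
    set g := (rev p M * M) *ᵥ u - μ • u with hg
    have g0 := ipp hp hne
    have e1 : ∀ v, ip p g v = ip p (M *ᵥ u) (M *ᵥ v) - μ * ip p u v := fun v => by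
      rw [← adj hp]
      simp only [ip, hg, mul_sum, ← sum_sub_distrib, Pi.sub_apply, Pi.smul_apply, smul_eq_mul]
      exact sum_congr rfl fun i _ => by ring
    have e2 := e1 fun _ => 1
    have e3 : M *ᵥ (fun _ => 1) = fun _ => 1 := by ext i; simp [mulVec, dotProduct, h.2.1]
    have u2' : ∑ i, p i * u i = 0 := u2
    simp only [e3, ip, mul_one, mean h, u2', mul_zero, sub_zero] at e2
    have := key ((μ + 1) • u + (1 : ℝ) • g) (by
      simp only [Pi.add_apply, Pi.smul_apply, smul_eq_mul, mul_add, sum_add_distrib, one_mul,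
        mul_left_comm (p _), ← mul_sum, u2', e2, mul_zero, add_zero])
    rw [mulVec_add, mulVec_smul, mulVec_smul, ipq, ipq, hμ] at this
    nlinarith [e1 g, ip0 hp (M *ᵥ g)]
  have : lam2 p (rev p M * M) = μ := IsGreatest.csSup_eq ⟨⟨u, u0, u2, ev⟩, fun ν ⟨f, a, b, c⟩ => by
    have := key f b
    rw [← adj hp, c] at this
    refine le_of_mul_le_mul_right (le_of_eq_of_le ?_ this) (ipp hp a)
    simp [ip, mul_sum, mul_left_comm, mul_assoc]⟩
  exact ⟨u, u0, u2, this ▸ hμ, this ▸ key⟩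

lemma lazy (hp : ∀ i, 0 < p i) (h : Stat p M) {a : ℝ} (h0 : 0 < a) (h1 : a < 1) (k : ℕ) :
    ∀ f, ip p ((a • 1 + (1 - a) • M) ^ k *ᵥ f) ((a • 1 + (1 - a) • M) ^ k *ᵥ f) ≤
      (1 - a) ^ k * ip p (M ^ k *ᵥ f) (M ^ k *ᵥ f) + (1 - (1 - a) ^ k) * ip p f f := by
  induction k with
  | zero => simp
  | succ k ih =>
    intro f
    have c0 : 0 ≤ (1 - a) ^ k := pow_nonneg (by linarith) k
    have c1 : (1 - a) ^ k ≤ 1 := pow_le_one₀ (by linarith) (by linarith)
    have a1 := ih f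
    have a2 := ih (M *ᵥ f)
    rw [mulVec_mulVec _ (M ^ k), ← pow_succ] at a2
    rw [pow_succ, ← mulVec_mulVec, add_mulVec, smul_mulVec, smul_mulVec, one_mulVec, mulVec_add,
      mulVec_smul, mulVec_smul, ipq, pow_succ (1 - a) k]
    set x := (a • 1 + (1 - a) • M) ^ k *ᵥ f
    set y := (a • 1 + (1 - a) • M) ^ k *ᵥ (M *ᵥ f)
    have b := ip0 hp ((1 : ℝ) • x + (-1 : ℝ) • y)
    rw [ipq] at b
    have b1 := mul_le_mul_of_nonneg_left (contr hp (h.pow k) f) c0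
    have b2 := mul_le_mul_of_nonneg_left (contr hp h f) (sub_nonneg.2 c1)
    have ha : 0 ≤ 1 - a := by linarith
    nlinarith [mul_nonneg (mul_nonneg h0.le ha) b, mul_le_mul_of_nonneg_left a1 h0.le,
      mul_le_mul_of_nonneg_left a2 ha, mul_le_mul_of_nonneg_left b1 h0.le,
      mul_le_mul_of_nonneg_left b2 ha]

theorem result : ∃ F : ℝ → ℝ → ℝ, (∀ a ∈ Set.Ioo (0 : ℝ) 1, ∀ g ∈ Set.Ioc (0 : ℝ) 1, 0 < F a g) ∧
    ∀ d : ℕ, 2 ≤ d → ∀ (p : Fin d → ℝ) (M : Matrix (Fin d) (Fin d) ℝ), (∀ i, 0 < p i) →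
      ∑ i, p i = 1 → Stat p M → ∀ a ∈ Set.Ioo (0 : ℝ) 1,
        F a (gps p M) ≤ gps p (a • 1 + (1 - a) • M) := by
  refine ⟨fun a g => (1 - a) ^ (2 / g) * (g / 2), fun a ha g hg =>
    mul_pos (Real.rpow_pos_of_pos (sub_pos.2 ha.2) _) (half_pos hg.1), ?_⟩
  intro d hd p M hp _ h a ⟨h0, h1⟩
  have ha : 0 < 1 - a := sub_pos.2 h1
  have hL : Stat p (a • 1 + (1 - a) • M) := ⟨fun i j => add_nonneg (mul_nonneg h0.le
      ((h.pow 0).1 i j)) (mul_nonneg ha.le (h.1 i j)), fun i => by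
    simp [sum_add_distrib, ← mul_sum, h.2.1, one_apply], fun j => by
    simp [mul_add, sum_add_distrib, mul_left_comm (p _), ← mul_sum, h.2.2, one_apply]; ring⟩
  have rg : ∀ N, Stat p N → 0 ≤ lam2 p (rev p N * N) ∧ lam2 p (rev p N * N) ≤ 1 := fun N hN => by
    obtain ⟨u, a, -, c, -⟩ := top hd hp hN
    have := ipp hp a
    constructor <;> nlinarith [ip0 hp (N *ᵥ u), contr hp hN u]
  have up : ∀ k : ℕ, (1 - a) ^ (k + 1) * ((1 - lam2 p (rev p (M ^ (k + 1)) * M ^ (k + 1))) /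
      (k + 1)) ≤ gps p (a • 1 + (1 - a) • M) := fun k => by
    refine le_ciSup_of_le ⟨1, ?_⟩ k ?_
    · rintro _ ⟨j, rfl⟩
      rw [div_le_one (by positivity)]
      linarith [(rg _ (hL.pow (j + 1))).1, Nat.cast_nonneg (α := ℝ) j]
    rw [← mul_div_assoc]
    gcongr
    obtain ⟨u, a1, a2, a3, -⟩ := top hd hp (hL.pow (k + 1))
    obtain ⟨-, -, -, -, b⟩ := top hd hp (h.pow (k + 1))
    have := lazy hp h h0 h1 (k + 1) u
    have := mul_le_mul_of_nonneg_left (b u a2) (pow_pos ha (k + 1)).le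
    refine le_of_mul_le_mul_right ?_ (ipp hp a1)
    linarith
  by_cases hg : 0 < gps p M
  · obtain ⟨k, hk⟩ := exists_lt_of_lt_ciSup (half_lt_self hg)
    change gps p M / 2 < _ at hk
    refine le_trans ?_ (up k)
    have k0 : (0 : ℝ) < k + 1 := by positivity
    have : (k + 1 : ℝ) ≤ 2 / gps p M := by
      rw [lt_div_iff₀ k0] at hk
      rw [le_div_iff₀ hg]
      linarith [(rg _ (h.pow (k + 1))).1]
    refine mul_le_mul ?_ hk.le (by positivity) (by positivity)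
    rw [← Real.rpow_natCast]
    exact Real.rpow_le_rpow_of_exponent_ge ha (by linarith) (by push_cast; exact this)
  · refine le_trans ?_ (up 0)
    have := (rg _ (h.pow (0 + 1))).2
    exact le_trans (mul_nonpos_of_nonneg_of_nonpos (by positivity) (by linarith))
      (mul_nonneg (by positivity) (div_nonneg (by linarith) (by positivity)))

end Pool.Agent.Results.MP_67c61c_pr.Lazy
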